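import Pool.Agent.Q74.BH.Stm2

/-! # Project BH, JOB CorK: almost all short intervals have their trajectories at few values -/

set_option autoImplicit false

namespace Pool.Agent.Q153.BH.CorK

open Finset
open Pool.Agent.Q74.KP
open Pool.Agent.Q74.SF
open Pool.Agent.Q74.BH
open Pool.Agent.Q158.Pair (T)
open Pool.Agent.Q158.Col4 (cI)

/-! ### canonical patterns -/

section patterns

variable {k : ℕ} {α : Type} [DecidableEq α]

/-- the canonical pattern: the least index with the same value -/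
def cp (v : Fin k → α) (i : Fin k) : Fin k :=
  (univ.filter (fun j => v j = v i)).min' ⟨i, by simp⟩

theorem cp_mem (v : Fin k → α) (i : Fin k) : v (cp v i) = v i := by
  have h := min'_mem (univ.filter (fun j => v j = v i)) ⟨i, by simp⟩
  rw [mem_filter] at h
  exact h.2

theorem cp_iff (v : Fin k → α) (i j : Fin k) : cp v i = cp v j ↔ v i = v j := by
  constructor
  · intro h
    calc v i = v (cp v i) := (cp_mem v i).symm
      _ = v (cp v j) := by rw [h]
      _ = v j := cp_mem v j
  · intro h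
    unfold cp
    simp only [h]

theorem cp_congr {β : Type} [DecidableEq β] (v : Fin k → α) (w : Fin k → β)
    (h : ∀ i j, v i = v j ↔ w i = w j) : cp v = cp w := by
  funext i
  unfold cp
  have e : (univ.filter (fun j => v j = v i)) = univ.filter (fun j => w j = w i) := by
    apply filter_congr
    intro j _
    exact h j i
  simp only [e]

theorem cp_cp (v : Fin k → α) : cp (cp v) = cp v := cp_congr _ _ (cp_iff v)

theorem pat_can {π : Fin k → Fin k} (hπ : cp π = π) (v : Fin k → α) :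
    pat π v = if cp v = π then 1 else 0 := by
  unfold pat
  by_cases h : cp v = π
  · rw [if_pos h, if_pos]
    intro i j
    rw [← h, cp_iff]
  · rw [if_neg h, if_neg]
    intro h2
    apply h
    rw [← hπ]
    exact cp_congr v π h2

theorem card_cp (v : Fin k → α) : (univ.image (cp v)).card = (univ.image v).card := by
  have h : univ.image v = (univ.image (cp v)).image v := by
    rw [image_image]
    congr 1
    funext i
    exact (cp_mem v i).symm
  rw [h]
  refine (card_image_of_injOn ?_).symm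
  intro x hx y hy hxy
  rw [mem_coe, mem_image] at hx hy
  obtain ⟨i, -, rfl⟩ := hx
  obtain ⟨j, -, rfl⟩ := hy
  exact (cp_iff v i j).2 ((cp_mem v i).symm.trans (hxy.trans (cp_mem v j)))

theorem card_expand (v : Fin k → α) : ((univ.image v).card : ℝ) =
    ∑ π ∈ univ.filter (fun π : Fin k → Fin k => cp π = π), ((univ.image π).card : ℝ) * pat π v := by
  have h : ∀ π ∈ univ.filter (fun π : Fin k → Fin k => cp π = π), ((univ.image π).card : ℝ) * pat π v =
      if cp v = π then ((univ.image π).card : ℝ) else 0 := by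
    intro π hπ
    rw [pat_can (mem_filter.1 hπ).2]
    split_ifs <;> simp
  rw [sum_congr rfl h, sum_ite_eq, if_pos, card_cp]
  rw [mem_filter]
  exact ⟨mem_univ _, cp_cp v⟩

end patterns

/-! ### the count in one interval -/

theorem pow_bd (k : ℕ) {p : ℝ} (hp0 : 0 ≤ p) (hp1 : p ≤ 1) (hkp : k * p ≤ 1) : (1 - p) ^ k ≤ 1 - k * p / 2 := by
  have h1 : 1 + (k : ℝ) * p ≤ (1 + p) ^ k := one_add_mul_le_pow (by linarith) k
  have h2 : (1 - p) ^ k * (1 + p) ^ k ≤ 1 := by
    rw [← mul_pow]
    apply pow_le_one₀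
    · nlinarith
    · nlinarith
  have h3 : 0 ≤ (1 - p) ^ k := pow_nonneg (by linarith) _
  have h4 : (1 - p) ^ k * (1 + k * p) ≤ 1 := (mul_le_mul_of_nonneg_left h1 h3).trans h2
  have hx : 0 ≤ (k : ℝ) * p := by positivity
  have h5 : 1 ≤ (1 - k * p / 2) * (1 + k * p) := by nlinarith
  have h6 : 0 < 1 + (k : ℝ) * p := by linarith
  have h7 : (1 - p) ^ k * (1 + k * p) ≤ (1 - k * p / 2) * (1 + k * p) := h4.trans h5
  exact le_of_mul_le_mul_right h7 h6

/-- the number of the `h` with `f h = v` -/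
def cn {H : ℕ} (f : Fin H → ℤ) (v : ℤ) : ℕ := (univ.filter (fun h => f h = v)).card

theorem hit_card {k H : ℕ} (f : Fin H → ℤ) (v : ℤ) :
    (((univ : Finset (Fin k → Fin H)).filter (fun h => v ∈ univ.image (f ∘ h))).card : ℝ) =
      (H : ℝ) ^ k - ((H : ℝ) - cn f v) ^ k := by
  classical
  have h1 := card_filter_add_card_filter_not (s := (univ : Finset (Fin k → Fin H)))
    (fun h => v ∈ univ.image (f ∘ h))
  rw [card_univ, Fintype.card_fun, Fintype.card_fin, Fintype.card_fin] at h1
  have h2 : ((univ : Finset (Fin k → Fin H)).filter (fun h => ¬ v ∈ univ.image (f ∘ h))) =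
      Fintype.piFinset (fun _ : Fin k => univ.filter (fun h => ¬ f h = v)) := by
    ext h
    simp only [mem_filter, mem_univ, true_and, mem_image, Function.comp, not_exists, Fintype.mem_piFinset]
  rw [h2, Fintype.card_piFinset_const] at h1
  have h3 := card_filter_add_card_filter_not (s := (univ : Finset (Fin H))) (fun h => f h = v)
  rw [card_univ, Fintype.card_fin] at h3
  have h4 : ((univ.filter (fun h => ¬ f h = v)).card : ℝ) = (H : ℝ) - cn f v := by
    unfold cn
    have : (((univ.filter (fun h => f h = v)).card + (univ.filter (fun h => ¬ f h = v)).card : ℕ) : ℝ) = H := by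
      exact_mod_cast h3
    push_cast at this
    linarith
  have h5 : ((((univ : Finset (Fin k → Fin H)).filter (fun h => v ∈ univ.image (f ∘ h))).card +
    (univ.filter (fun h => ¬ f h = v)).card ^ k : ℕ) : ℝ) = ((H ^ k : ℕ) : ℝ) := by exact_mod_cast h1
  push_cast at h5
  rw [h4] at h5
  linarith

theorem cn_sum {H : ℕ} (f : Fin H → ℤ) (V : Finset ℤ) :
    ∑ v ∈ V, cn f v = (univ.filter (fun h => f h ∈ V)).card := by
  classical
  unfold cn
  rw [← card_biUnion]
  · congr 1
    ext h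
    simp
  · intro x _ y _ hxy
    rw [Function.onFun, disjoint_left]
    intro h hx hy
    rw [mem_filter] at hx hy
    exact hxy (hx.2.symm.trans hy.2)

theorem bad_ge {k H : ℕ} (hk : 1 ≤ k) (hH : 1 ≤ H) (f : Fin H → ℤ) {η : ℝ}
    (hbad : ∀ V : Finset ℤ, V.card ≤ k → ((univ.filter (fun h => f h ∈ V)).card : ℝ) < (1 - η) * H) :
    k * η / 2 * (H : ℝ) ^ k ≤ ∑ h : Fin k → Fin H, ((univ.image (f ∘ h)).card : ℝ) := by
  classical
  have hHp : (0 : ℝ) < H := by exact_mod_cast hH
  have hkp : (0 : ℝ) < k := by exact_mod_cast hk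
  set U : Finset ℤ := univ.image f with hU
  set V : Finset ℤ := U.filter (fun v => H < k * cn f v) with hV
  set W : Finset ℤ := U.filter (fun v => ¬ H < k * cn f v) with hW
  have hVc : V.card ≤ k := by
    by_contra hcon
    push Not at hcon
    have h1 : V.card * (H + 1) ≤ ∑ v ∈ V, k * cn f v := by
      rw [← smul_eq_mul, ← sum_const]
      apply sum_le_sum
      intro v hv
      have := (mem_filter.1 hv).2
      omega
    rw [← mul_sum, cn_sum] at h1
    have h2 : (univ.filter (fun h => f h ∈ V)).card ≤ H := by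
      refine (card_filter_le _ _).trans ?_
      rw [card_univ, Fintype.card_fin]
    have h3 : (k + 1) * (H + 1) ≤ V.card * (H + 1) := Nat.mul_le_mul_right _ hcon
    have h4 : k * (univ.filter (fun h => f h ∈ V)).card ≤ k * H := Nat.mul_le_mul_left _ h2
    nlinarith
  have hWV : ∑ v ∈ V, cn f v + ∑ v ∈ W, cn f v = H := by
    rw [hV, hW, sum_filter_add_sum_filter_not, cn_sum]
    have : univ.filter (fun h => f h ∈ U) = univ := by
      apply filter_true_of_mem
      intro h _
      rw [hU]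
      exact mem_image_of_mem _ (mem_univ _)
    rw [this, card_univ, Fintype.card_fin]
  have h1 := hbad V hVc
  rw [← cn_sum] at h1
  have h2 : η * H ≤ ∑ v ∈ W, (cn f v : ℝ) := by
    have h3 : ((∑ v ∈ V, cn f v + ∑ v ∈ W, cn f v : ℕ) : ℝ) = H := by exact_mod_cast hWV
    push_cast at h3 h1
    linarith
  -- swap
  have h3 : ∑ h : Fin k → Fin H, ((univ.image (f ∘ h)).card : ℝ) =
      ∑ v ∈ U, (((univ : Finset (Fin k → Fin H)).filter (fun h => v ∈ univ.image (f ∘ h))).card : ℝ) := by
    have e : ∀ h : Fin k → Fin H, ((univ.image (f ∘ h)).card : ℝ) = ∑ v ∈ U, if v ∈ univ.image (f ∘ h) then 1 else 0 := by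
      intro h
      rw [← sum_filter, sum_const, nsmul_eq_mul, mul_one, filter_mem_eq_inter]
      congr 2
      symm
      rw [inter_eq_right]
      intro x hx
      rw [mem_image] at hx
      obtain ⟨i, -, rfl⟩ := hx
      rw [hU]
      exact mem_image_of_mem _ (mem_univ _)
    rw [sum_congr rfl (fun h _ => e h), sum_comm]
    apply sum_congr rfl
    intro v _
    rw [← sum_filter, sum_const, nsmul_eq_mul, mul_one]
  rw [h3]
  have h4 : ∑ v ∈ W, (k / 2 * cn f v * (H : ℝ) ^ k / H) ≤
      ∑ v ∈ U, (((univ : Finset (Fin k → Fin H)).filter (fun h => v ∈ univ.image (f ∘ h))).card : ℝ) := by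
    have h5 : ∑ v ∈ W, (k / 2 * cn f v * (H : ℝ) ^ k / H) ≤
        ∑ v ∈ W, (((univ : Finset (Fin k → Fin H)).filter (fun h => v ∈ univ.image (f ∘ h))).card : ℝ) := by
      apply sum_le_sum
      intro v hv
      rw [hit_card]
      have h6 : k * cn f v ≤ H := not_lt.1 (mem_filter.1 hv).2
      have h6' : (k : ℝ) * cn f v ≤ H := by exact_mod_cast h6
      have h7 : (cn f v : ℝ) ≤ H := by
        have : (1 : ℝ) ≤ k := by exact_mod_cast hk
        have h8 : (0 : ℝ) ≤ cn f v := Nat.cast_nonneg _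
        nlinarith
      have h8 := pow_bd k (p := cn f v / H) (by positivity) (by rw [div_le_one hHp]; exact h7)
        (by rw [← mul_div_assoc, div_le_one hHp]; exact h6')
      have h9 : ((H : ℝ) - cn f v) ^ k = (H : ℝ) ^ k * (1 - cn f v / H) ^ k := by
        rw [← mul_pow]
        congr 1
        field_simp
      rw [h9]
      have h10 : (H : ℝ) ^ k * (1 - cn f v / H) ^ k ≤ (H : ℝ) ^ k * (1 - k * (cn f v / H) / 2) :=
        mul_le_mul_of_nonneg_left h8 (by positivity)
      have h11 : k / 2 * cn f v * (H : ℝ) ^ k / H = (H : ℝ) ^ k - (H : ℝ) ^ k * (1 - k * (cn f v / H) / 2) := by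
        field_simp
        ring
      rw [h11]
      linarith
    refine h5.trans ?_
    apply sum_le_sum_of_subset_of_nonneg
    · rw [hW]; exact filter_subset _ _
    · intro v _ _
      exact Nat.cast_nonneg _
  refine le_trans ?_ h4
  have h5 : ∑ v ∈ W, (k / 2 * cn f v * (H : ℝ) ^ k / H) = k / 2 * (H : ℝ) ^ k / H * ∑ v ∈ W, (cn f v : ℝ) := by
    rw [mul_sum]
    apply sum_congr rfl
    intro v _
    ring
  rw [h5]
  calc k * η / 2 * (H : ℝ) ^ k = k / 2 * (H : ℝ) ^ k / H * (η * H) := by field_simp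
    _ ≤ k / 2 * (H : ℝ) ^ k / H * ∑ v ∈ W, (cn f v : ℝ) := mul_le_mul_of_nonneg_left h2 (by positivity)

/-! ### the time -/

theorem time {c : ℝ} (hc0 : 0 ≤ c) (hc1 : c < 1) (t₀ : ℕ) : ∃ N₀ : ℕ, ∀ N : ℕ, N₀ ≤ N → ∀ H : ℕ, 1 ≤ H →
    (H : ℝ) ≤ (N : ℝ) ^ c → 1 ≤ N ∧ ∃ t : ℕ, t₀ ≤ t ∧ (1 + (1 - c) / 42) * (cI * Real.log H) ≤ t ∧
      (1 + (1 - c) / 42) * t ≤ cI * Real.log H + Real.logb 2 ((N : ℝ) / H) := by
  obtain ⟨hlo, hhi⟩ := Pool.Agent.Q158.Col4.log43_bounds
  have hcI0 : 0 < cI := by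
    unfold Pool.Agent.Q158.Col4.cI
    positivity
  have hcI7 : cI ≤ 7 := by
    unfold Pool.Agent.Q158.Col4.cI
    rw [div_le_iff₀ (by positivity)]
    linarith
  set κ : ℝ := (1 - c) / 42 with hκdef
  have hκ : 0 < κ := by
    rw [hκdef]
    have : 0 < 1 - c := by linarith
    positivity
  have hκ1 : κ ≤ 1 := by rw [hκdef]; linarith
  refine ⟨⌈Real.exp (4 / (1 - c) + 2 * ((t₀ : ℝ) + 1) / (1 - c))⌉₊ + 1, ?_⟩
  intro N hN H hH hHN
  have hNr : Real.exp (4 / (1 - c) + 2 * ((t₀ : ℝ) + 1) / (1 - c)) ≤ N := by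
    refine (Nat.le_ceil _).trans ?_
    have : ((⌈Real.exp (4 / (1 - c) + 2 * ((t₀ : ℝ) + 1) / (1 - c))⌉₊ + 1 : ℕ) : ℝ) ≤ (N : ℝ) := by exact_mod_cast hN
    push_cast at this
    linarith
  have hNp : (0 : ℝ) < N := (Real.exp_pos _).trans_le hNr
  have hN1 : 1 ≤ N := by
    have : 0 < N := by exact_mod_cast hNp
    exact this
  have hHp : (0 : ℝ) < H := by exact_mod_cast (by omega : 0 < H)
  have hH1 : (1 : ℝ) ≤ H := by exact_mod_cast hH
  set l : ℝ := Real.log N with hl
  set s : ℝ := Real.log H with hs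
  have hs0 : 0 ≤ s := Real.log_nonneg hH1
  have hsl : s ≤ c * l := by
    rw [hs, hl, ← Real.log_rpow hNp]
    exact Real.log_le_log hHp hHN
  have hll : 4 / (1 - c) + 2 * ((t₀ : ℝ) + 1) / (1 - c) ≤ l := by
    rw [hl, Real.le_log_iff_exp_le hNp]
    exact hNr
  have h1c : 0 < 1 - c := by linarith
  have hll' : 4 + 2 * ((t₀ : ℝ) + 1) ≤ (1 - c) * l := by
    rw [← add_div, div_le_iff₀ h1c] at hll
    linarith
  have h0 : (0 : ℝ) ≤ t₀ := Nat.cast_nonneg _
  have hl0 : 0 ≤ l := by
    have : 0 ≤ (1 - c) * l := by linarith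
    exact nonneg_of_mul_nonneg_right this h1c
  set u : ℝ := cI * s + Real.logb 2 ((N : ℝ) / H) with hu
  have hlogb : (1 - c) * l ≤ Real.logb 2 ((N : ℝ) / H) := by
    rw [Real.logb, Real.log_div hNp.ne' hHp.ne', ← hl, ← hs]
    have h2 : Real.log 2 ≤ 1 := by
      have := Real.log_two_lt_d9
      linarith
    have h2' : 0 < Real.log 2 := Real.log_pos (by norm_num)
    rw [le_div_iff₀ h2']
    have h3 : (1 - c) * l ≤ l - s := by linarith
    have h4 : 0 ≤ (1 - c) * l := by positivity
    nlinarith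
  have hu0 : 0 ≤ u := by
    rw [hu]
    have : 0 ≤ (1 - c) * l := by positivity
    have h3 : 0 ≤ cI * s := by positivity
    linarith
  set t : ℕ := ⌊u / (1 + κ)⌋₊ with ht
  have h1κ : 0 < 1 + κ := by linarith
  have ht1 : (1 + κ) * t ≤ u := by
    have := Nat.floor_le (show 0 ≤ u / (1 + κ) by positivity)
    rw [← ht, le_div_iff₀ h1κ] at this
    linarith
  have ht2 : u / (1 + κ) < t + 1 := by
    rw [ht]
    exact Nat.lt_floor_add_one _
  have hcs : cI * s ≤ 7 * l := by
    have h1 : s ≤ l := by nlinarith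
    calc cI * s ≤ 7 * s := mul_le_mul_of_nonneg_right hcI7 hs0
      _ ≤ 7 * l := by linarith
  have hcs0 : 0 ≤ cI * s := by positivity
  have ht3 : (1 + κ) * (cI * s) ≤ t := by
    rw [div_lt_iff₀ h1κ] at ht2
    have h1 : (1 + κ) * ((1 + κ) * (cI * s)) + (1 + κ) ≤ u := by
      have h2 : (2 * κ + κ ^ 2) * (cI * s) ≤ (1 - c) / 2 * l := by
        have h3 : 2 * κ + κ ^ 2 ≤ (1 - c) / 14 := by
          have : κ ^ 2 ≤ κ := by nlinarith
          have h4 : 3 * κ = (1 - c) / 14 := by rw [hκdef]; ring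
          linarith
        calc (2 * κ + κ ^ 2) * (cI * s) ≤ (1 - c) / 14 * (cI * s) := mul_le_mul_of_nonneg_right h3 hcs0
          _ ≤ (1 - c) / 14 * (7 * l) := mul_le_mul_of_nonneg_left hcs (by linarith)
          _ = (1 - c) / 2 * l := by ring
      have h5 : (1 + κ) * ((1 + κ) * (cI * s)) = cI * s + (2 * κ + κ ^ 2) * (cI * s) := by ring
      rw [h5, hu]
      nlinarith
    have h2 : (1 + κ) * ((1 + κ) * (cI * s)) < (1 + κ) * t := by
      have : ((t : ℝ) + 1) * (1 + κ) = (1 + κ) * t + (1 + κ) := by ring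
      linarith
    exact (lt_of_mul_lt_mul_left h2 h1κ.le).le
  have ht4 : (t₀ : ℝ) ≤ t := by
    have h1 : (1 - c) * l / 2 ≤ u / (1 + κ) := by
      rw [div_le_div_iff₀ (by norm_num) h1κ]
      have h2 : (1 - c) * l ≤ u := by rw [hu]; linarith
      have h3 : 0 ≤ (1 - c) * l := by positivity
      nlinarith
    linarith
  exact ⟨hN1, t, by exact_mod_cast ht4, ht3, ht1⟩

/-! ### the average -/

theorem Ab_sum {k H L t : ℕ} {a : ℤ} {ι : Type*} (s : Finset ι) (c : ι → ℝ) (Φ : ι → (Fin k → ℤ × ℤ) → ℝ) :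
    Ab k H L t a (fun V => ∑ i ∈ s, c i * Φ i V) = ∑ i ∈ s, c i * Ab k H L t a (Φ i) := by
  unfold Pool.Agent.Q74.BH.Ab
  have e : ∀ i ∈ s, c i * ((∑ x ∈ Ico a (a + L), ∑ h : Fin k → Fin H, Φ i (V0 t x h)) / (L * (H : ℝ) ^ k)) =
      (∑ x ∈ Ico a (a + L), ∑ h : Fin k → Fin H, c i * Φ i (V0 t x h)) / (L * (H : ℝ) ^ k) := by
    intro i _
    rw [mul_div_assoc', mul_sum]
    congr 1
    apply sum_congr rfl
    intro x _
    rw [mul_sum]
  have e2 : ∑ i ∈ s, ∑ x ∈ Ico a (a + (L : ℤ)), ∑ h : Fin k → Fin H, c i * Φ i (V0 t x h) =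
      ∑ x ∈ Ico a (a + (L : ℤ)), ∑ h : Fin k → Fin H, ∑ i ∈ s, c i * Φ i (V0 t x h) := by
    rw [sum_comm]
    apply sum_congr rfl
    intro x _
    rw [sum_comm]
  rw [sum_congr rfl e, ← sum_div, e2]

theorem corK (hM : S_Main) (hN : S_Num) : S_CorK := by
  classical
  intro c ε η hc0 hc1 hε hη0 hη1
  have hκ : 0 < (1 - c) / 42 := by
    have : 0 < 1 - c := by linarith
    positivity
  obtain ⟨C, hC, hnum⟩ := hN ((1 - c) / 42) hκ
  -- the number of points
  obtain ⟨k, hk⟩ := exists_nat_ge ((2 * (2 + C) / (ε * η)) ^ 2 + 1)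
  have hk1r : (1 : ℝ) ≤ k := by
    have := sq_nonneg (2 * (2 + C) / (ε * η))
    linarith
  have hk1 : 1 ≤ k := by exact_mod_cast hk1r
  have hkp : (0 : ℝ) < k := by linarith
  have hsk : 1 ≤ √(k : ℝ) := by rw [Real.one_le_sqrt]; exact hk1r
  have hsk2 : √(k : ℝ) * √(k : ℝ) = k := Real.mul_self_sqrt hkp.le
  have hkey : 2 + C * √k ≤ ε * (k * η / 2) := by
    have h1 : 2 * (2 + C) / (ε * η) ≤ √k := by
      apply Real.le_sqrt_of_sq_le
      linarith
    rw [div_le_iff₀ (by positivity)] at h1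
    have h2 : 2 + C * √k ≤ (2 + C) * √k := by nlinarith
    have h3 : 2 * (2 + C) * √k ≤ √k * (ε * η) * √k := mul_le_mul_of_nonneg_right h1 (by positivity)
    have h4 : √(k : ℝ) * (ε * η) * √k = ε * η * k := by
      rw [show √(k : ℝ) * (ε * η) * √k = ε * η * (√(k : ℝ) * √k) by ring, hsk2]
    rw [h4] at h3
    linarith
  have hkk : (0 : ℝ) < (k : ℝ) * (k : ℝ) ^ k := by positivity
  obtain ⟨t₀, ht₀⟩ := hM k 0 ((1 - c) / 42) (1 / (k * (k : ℝ) ^ k)) le_rfl hκ (by positivity)
  obtain ⟨N₀, hN₀⟩ := time hc0 hc1 (t₀ + 1)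
  refine ⟨k, N₀, fun N hNN H hH hHN => ?_⟩
  obtain ⟨hN1, t, ht, ht3, ht1⟩ := hN₀ N hNN H hH hHN
  refine ⟨t, fun a => ?_⟩
  have hNp : (0 : ℝ) < N := by exact_mod_cast hN1
  have hHp : (0 : ℝ) < H := by exact_mod_cast hH
  have hH1 : (1 : ℝ) ≤ H := by exact_mod_cast hH
  have hcI0 : 0 < cI := by
    obtain ⟨hlo, hhi⟩ := Pool.Agent.Q158.Col4.log43_bounds
    unfold Pool.Agent.Q158.Col4.cI
    positivity
  have hcs0 : 0 ≤ cI * Real.log H := mul_nonneg hcI0.le (Real.log_nonneg hH1)
  set m : ℕ := ⌊cI * Real.log H⌋₊ with hm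
  have hm1 : (m : ℝ) ≤ cI * Real.log H := Nat.floor_le hcs0
  have hmt : (1 + (1 - c) / 42) * m ≤ t := (mul_le_mul_of_nonneg_left hm1 (by positivity)).trans ht3
  have hmt' : m < t := by
    rcases Nat.eq_zero_or_pos m with h | h
    · omega
    · have h1 : (0 : ℝ) < m := by exact_mod_cast h
      have h2 : (m : ℝ) < t := by nlinarith
      exact_mod_cast h2
  have hmodel := hnum m (t - m) (by
    rw [Nat.cast_sub hmt'.le]
    linarith) (by omega) k
  -- the mean number of different values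
  have hmean : Ab k H N t a (fun V => ((univ.image V).card : ℝ)) ≤ 2 + C * √k := by
    have e1 : (fun V : Fin k → ℤ × ℤ => ((univ.image V).card : ℝ)) = fun V =>
        ∑ π ∈ univ.filter (fun π : Fin k → Fin k => cp π = π), ((univ.image π).card : ℝ) *
          Ph π (fun _ => 1) V := by
      funext V
      rw [card_expand]
      apply sum_congr rfl
      intro π _
      unfold Ph
      rw [mul_one]
    rw [e1, Ab_sum]
    have h1 : ∀ π ∈ univ.filter (fun π : Fin k → Fin k => cp π = π),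
        ((univ.image π).card : ℝ) * Ab k H N t a (Ph π (fun _ => 1)) ≤
        ((univ.image π).card : ℝ) * act k (PP k ^ m) (CG (Fm π (fun _ => 1)) (t - m)) 0 +
          k * (1 / (k * (k : ℝ) ^ k)) := by
      intro π _
      have h2 := ht₀ t (by omega) H N hH hN1 ht3 ht1 a π (fun _ => 1) (fun z => by rw [abs_one]) (fun z w => by
        rw [sub_self, abs_zero, zero_div, zero_mul])
      rw [← hm] at h2
      have h3 := (abs_le.1 h2).2
      have h4 : ((univ.image π).card : ℝ) ≤ k := by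
        have : (univ.image π).card ≤ k := by
          refine card_image_le.trans ?_
          rw [card_univ, Fintype.card_fin]
        exact_mod_cast this
      have h5 : (0 : ℝ) ≤ ((univ.image π).card : ℝ) := Nat.cast_nonneg _
      have h6 : Ab k H N t a (Ph π (fun _ => 1)) ≤ act k (PP k ^ m) (CG (Fm π (fun _ => 1)) (t - m)) 0 +
          1 / (k * (k : ℝ) ^ k) := by linarith
      refine (mul_le_mul_of_nonneg_left h6 h5).trans ?_
      rw [mul_add]
      have h7 : ((univ.image π).card : ℝ) * (1 / (k * (k : ℝ) ^ k)) ≤ k * (1 / (k * (k : ℝ) ^ k)) :=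
        mul_le_mul_of_nonneg_right h4 (by positivity)
      linarith
    refine (sum_le_sum h1).trans ?_
    rw [sum_add_distrib]
    have h2 : ∑ π ∈ univ.filter (fun π : Fin k → Fin k => cp π = π),
        ((univ.image π).card : ℝ) * act k (PP k ^ m) (CG (Fm π (fun _ => 1)) (t - m)) 0 =
        act k (PP k ^ m) (CG (fun z => ((univ.image z).card : ℝ)) (t - m)) 0 := by
      have e2 : (fun z : Fin k → ℤ => ((univ.image z).card : ℝ)) = fun z =>
          ∑ π ∈ univ.filter (fun π : Fin k → Fin k => cp π = π), ((univ.image π).card : ℝ) *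
            Fm π (fun _ => 1) z := by
        funext z
        rw [card_expand]
        apply sum_congr rfl
        intro π _
        unfold Fm
        rw [mul_one]
      have e3 : CG (fun z : Fin k → ℤ => ((univ.image z).card : ℝ)) (t - m) = ∑ π ∈ univ.filter
          (fun π : Fin k → Fin k => cp π = π), ((univ.image π).card : ℝ) • CG (Fm π (fun _ => 1)) (t - m) := by
        funext z
        rw [e2, CG_sum (univ.filter (fun π : Fin k → Fin k => cp π = π))
          (fun π z => ((univ.image π).card : ℝ) * Fm π (fun _ => 1) z), Finset.sum_apply]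
        apply sum_congr rfl
        intro π _
        rw [CG_mul, Pi.smul_apply, smul_eq_mul]
      rw [e3, map_sum, Finset.sum_apply]
      apply sum_congr rfl
      intro π _
      rw [map_smul, Pi.smul_apply, smul_eq_mul]
    rw [h2, sum_const, nsmul_eq_mul]
    have h3 : ((univ.filter (fun π : Fin k → Fin k => cp π = π)).card : ℝ) ≤ (k : ℝ) ^ k := by
      have : (univ.filter (fun π : Fin k → Fin k => cp π = π)).card ≤ k ^ k := by
        refine (card_filter_le _ _).trans ?_
        rw [card_univ, Fintype.card_fun, Fintype.card_fin]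
      exact_mod_cast this
    have h4 : ((univ.filter (fun π : Fin k → Fin k => cp π = π)).card : ℝ) * (k * (1 / (k * (k : ℝ) ^ k))) ≤ 1 := by
      calc ((univ.filter (fun π : Fin k → Fin k => cp π = π)).card : ℝ) * (k * (1 / (k * (k : ℝ) ^ k))) ≤
          (k : ℝ) ^ k * (k * (1 / (k * (k : ℝ) ^ k))) := mul_le_mul_of_nonneg_right h3 (by positivity)
        _ = 1 := by field_simp
    linarith
  -- the bad intervals
  set S := (Ico a (a + (N : ℤ))).filter (fun x => ∃ V : Finset ℤ, V.card ≤ k ∧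
    (1 - η) * H ≤ (((range H).filter (fun h : ℕ => T^[t] (x + h) ∈ V)).card : ℝ)) with hS
  have h4 : ((N : ℝ) - S.card) * (k * η / 2 * (H : ℝ) ^ k) ≤
      ∑ x ∈ Ico a (a + (N : ℤ)), ∑ h : Fin k → Fin H, ((univ.image (V0 t x h)).card : ℝ) := by
    have h5 : ∀ x ∈ Ico a (a + (N : ℤ)), (k * η / 2 * (H : ℝ) ^ k) - (if x ∈ S then (k * η / 2 * (H : ℝ) ^ k) else 0) ≤
        ∑ h : Fin k → Fin H, ((univ.image (V0 t x h)).card : ℝ) := by
      intro x hx
      split_ifs with hxS
      · rw [sub_self]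
        exact sum_nonneg fun h _ => Nat.cast_nonneg _
      · rw [sub_zero]
        have h6 := bad_ge (k := k) (H := H) hk1 hH (fun h : Fin H => T^[t] (x + ((h : ℕ) : ℤ))) (η := η) (by
          intro V hV
          by_contra hcon
          push Not at hcon
          apply hxS
          rw [hS, mem_filter]
          refine ⟨hx, V, hV, hcon.trans (le_of_eq ?_)⟩
          congr 1
          rw [card_filter, card_filter]
          exact Fin.sum_univ_eq_sum_range (fun h : ℕ => if T^[t] (x + (h : ℤ)) ∈ V then 1 else 0) H)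
        refine h6.trans ?_
        apply sum_le_sum
        intro h _
        have h7 : univ.image ((fun h : Fin H => T^[t] (x + ((h : ℕ) : ℤ))) ∘ h) =
            (univ.image (V0 t x h)).image Prod.snd := by
          rw [image_image]
          rfl
        rw [h7]
        exact_mod_cast card_image_le
    refine le_trans (le_of_eq ?_) (sum_le_sum h5)
    rw [sum_sub_distrib, sum_const, Int.card_Ico, ← sum_filter, sum_const, nsmul_eq_mul, nsmul_eq_mul]
    have e1 : (Ico a (a + (N : ℤ))).filter (fun x => x ∈ S) = S := by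
      rw [filter_mem_eq_inter, inter_eq_right]
      rw [hS]
      exact filter_subset _ _
    rw [e1]
    have : a + (N : ℤ) - a = N := by ring
    rw [this, Int.toNat_natCast]
    ring
  have h5 : ∑ x ∈ Ico a (a + (N : ℤ)), ∑ h : Fin k → Fin H, ((univ.image (V0 t x h)).card : ℝ) ≤
      (2 + C * √k) * (N * (H : ℝ) ^ k) := by
    have h6 := hmean
    unfold Pool.Agent.Q74.BH.Ab at h6
    rwa [div_le_iff₀ (by positivity)] at h6
  have h6 : ((N : ℝ) - S.card) * (k * η / 2 * (H : ℝ) ^ k) ≤ (ε * (k * η / 2)) * (N * (H : ℝ) ^ k) :=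
    (h4.trans h5).trans (mul_le_mul_of_nonneg_right hkey (by positivity))
  have h7 : ((N : ℝ) - S.card) * (k * η / 2 * (H : ℝ) ^ k) ≤ (ε * N) * (k * η / 2 * (H : ℝ) ^ k) := by
    refine h6.trans (le_of_eq ?_)
    ring
  have h8 : (0 : ℝ) < k * η / 2 * (H : ℝ) ^ k := by positivity
  have h9 := le_of_mul_le_mul_right h7 h8
  linarith

end Pool.Agent.Q153.BH.CorK
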