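import Pool.Agent.Q74.BH.Stm2
import Pool.Agent.Q177.SF.Comp
import Pool.Agent.Q210.SF.CInj

/-! # Project BH, JOB Num: the mean number of places of coalescing walkers -/

set_option autoImplicit false

namespace Pool.Agent.Q153.BH

open Finset
open Pool.Agent.Q74.KP
open Pool.Agent.Q74.SF
open Pool.Agent.Q74.BH
open Pool.Agent.Q158.Pair (q q_zero_right q_succ)
open Pool.Agent.Q74.AR (bE bE_zero bE_succ bE_mono bE_mul bE_add bE_const bE_sq)

/-! ### two walkers -/

/-- indicator of the heads `k` with `2 k > c` -/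
noncomputable def hd (c : ℤ) (k : ℕ) : ℝ := if c < 2 * (k : ℤ) then 1 else 0

theorem q_eq (t : ℕ) : ∀ a : ℕ, q t a = bE t (fun k => hd ((t : ℤ) - a) k - hd ((t : ℤ) + a) k) := by
  induction t with
  | zero =>
    intro a
    rw [bE_zero]
    unfold hd
    rcases Nat.eq_zero_or_pos a with h | h
    · subst h
      simp [q]
    · have h1 : a ≠ 0 := by omega
      have h2 : (((0 : ℕ) : ℤ) - a < 2 * ((0 : ℕ) : ℤ)) := by push_cast; omega
      have h3 : ¬ (((0 : ℕ) : ℤ) + a < 2 * ((0 : ℕ) : ℤ)) := by push_cast; omega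
      rw [if_pos h2, if_neg h3]
      simp [q, h1]
  | succ n ih =>
    intro a
    rcases Nat.eq_zero_or_pos a with h | h
    · subst h
      rw [q_zero_right]
      have e : (fun k => hd (((n + 1 : ℕ) : ℤ) - (0 : ℕ)) k - hd (((n + 1 : ℕ) : ℤ) + (0 : ℕ)) k) = fun _ => (0 : ℝ) := by
        funext k
        rw [show ((n + 1 : ℕ) : ℤ) - ((0 : ℕ) : ℤ) = ((n + 1 : ℕ) : ℤ) + ((0 : ℕ) : ℤ) by push_cast; ring]
        ring
      rw [e, bE_const]
    · obtain ⟨b, rfl⟩ : ∃ b, a = b + 1 := ⟨a - 1, by omega⟩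
      rw [q_succ, ih, ih, bE_succ]
      rw [← bE_add, ← bE_add]
      congr 2
      funext k
      unfold hd
      push_cast
      split_ifs <;> first | omega | norm_num

theorem bE_shift (t : ℕ) {f : ℕ → ℝ} {K : ℝ} (hf : ∀ m, |f m| ≤ K) (a : ℕ) :
    |bE t (fun m => f (m + a)) - bE t f| ≤ a * (2 / √(t + 1) * K) := by
  induction a with
  | zero => simp
  | succ n ih =>
    have h1 := bE_der_bd t (f := fun m => f (m + n)) (K := K) (fun m => hf _)
    have e : (fun m => f (m + 1 + n)) = fun m => f (m + (n + 1)) := by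
      funext m
      congr 1
      omega
    simp only [e] at h1
    have h2 := abs_add_le (bE t (fun m => f (m + (n + 1))) - bE t (fun m => f (m + n)))
      (bE t (fun m => f (m + n)) - bE t f)
    rw [sub_add_sub_cancel] at h2
    push_cast
    linarith

theorem q_le (t a : ℕ) : q t a ≤ a * (2 / √(t + 1)) := by
  have h1 := bE_shift t (f := hd ((t : ℤ) + a)) (K := 1) (fun m => by
    unfold hd
    split_ifs <;> norm_num) a
  rw [q_eq]
  have e : bE t (fun k => hd ((t : ℤ) - a) k - hd ((t : ℤ) + a) k) =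
      bE t (fun m => hd ((t : ℤ) + a) (m + a)) - bE t (hd ((t : ℤ) + a)) := by
    have h2 := bE_add t (fun m => hd ((t : ℤ) + a) (m + a)) (fun m => (-1) * hd ((t : ℤ) + a) m)
    rw [bE_mul] at h2
    have e2 : (fun k => hd ((t : ℤ) - a) k - hd ((t : ℤ) + a) k) =
        fun m => hd ((t : ℤ) + a) (m + a) + (-1) * hd ((t : ℤ) + a) m := by
      funext m
      have : hd ((t : ℤ) - a) m = hd ((t : ℤ) + a) (m + a) := by
        unfold hd
        congr 1
        apply propext
        push_cast
        constructor <;> intro h <;> linarith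
      rw [this]
      ring
    rw [e2, h2]
    ring
  rw [e]
  rw [mul_one] at h1
  exact (le_abs_self _).trans h1

theorem pq_one_le (r : ℕ) : pq r 1 ≤ 4 / √(2 * (r : ℝ) + 1) := by
  unfold pq
  have h := q_le (2 * r) (2 * (1 : ℤ).natAbs)
  refine h.trans (le_of_eq ?_)
  rw [show (1 : ℤ).natAbs = 1 from rfl]
  push_cast
  ring

/-! ### the number of places -/

theorem changes (n : ℕ) : ∀ w : Fin (n + 1) → ℤ, ((univ.image w).card : ℝ) ≤
    1 + ∑ j : Fin n, (if Function.Injective (![w j.castSucc, w j.succ] : Fin 2 → ℤ) then (1 : ℝ) else 0) := by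
  induction n with
  | zero =>
    intro w
    rw [Fin.sum_univ_zero, add_zero]
    have h : (univ.image w).card ≤ (univ : Finset (Fin (0 + 1))).card := card_image_le
    rw [card_univ, Fintype.card_fin] at h
    exact_mod_cast h
  | succ n ih =>
    intro w
    have h := ih (fun j => w j.castSucc)
    rw [Fin.sum_univ_castSucc]
    have e : univ.image w = insert (w (Fin.last (n + 1))) (univ.image (fun j : Fin (n + 1) => w j.castSucc)) := by
      ext x
      simp only [mem_image, mem_univ, true_and, mem_insert]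
      constructor
      · rintro ⟨j, rfl⟩
        refine Fin.lastCases ?_ (fun j => ?_) j
        · left; rfl
        · right; exact ⟨j, rfl⟩
      · rintro (rfl | ⟨j, rfl⟩)
        · exact ⟨_, rfl⟩
        · exact ⟨_, rfl⟩
    have h2 : ((univ.image w).card : ℝ) ≤ ((univ.image (fun j : Fin (n + 1) => w j.castSucc)).card : ℝ) +
        (if Function.Injective (![w (Fin.last n).castSucc, w (Fin.last n).succ] : Fin 2 → ℤ) then (1 : ℝ) else 0) := by
      by_cases hw : w (Fin.last n).castSucc = w (Fin.last n).succ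
      · have h3 : w (Fin.last (n + 1)) ∈ univ.image (fun j : Fin (n + 1) => w j.castSucc) := by
          rw [mem_image]
          exact ⟨Fin.last n, mem_univ _, hw⟩
        rw [e, insert_eq_of_mem h3]
        split_ifs <;> linarith
      · rw [if_pos]
        · rw [e]
          have h3 := card_insert_le (w (Fin.last (n + 1))) (univ.image (fun j : Fin (n + 1) => w j.castSucc))
          exact_mod_cast h3
        · intro i j hij
          fin_cases i <;> fin_cases j
          · rfl
          · exact absurd hij hw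
          · exact absurd hij.symm hw
          · rfl
    have h4 : ∀ j : Fin n, (j.castSucc).succ = (j.succ).castSucc := fun j => rfl
    simp only [h4] at h ⊢
    linarith

theorem places_le {k : ℕ} (r : ℕ) (lo : ℤ) (n : ℕ) (z : Fin k → ℤ) (hz : ∀ i, lo ≤ z i ∧ z i ≤ lo + n) :
    CG (fun z : Fin k → ℤ => ((univ.image z).card : ℝ)) r z ≤ 1 + n * pq r 1 := by
  classical
  set b : Fin (n + 1) → ℤ := fun j => lo + (j : ℕ) with hb
  set e : Fin k → Fin (n + 1) := fun i => ⟨(z i - lo).toNat, by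
    have := hz i
    omega⟩ with he
  have hbe : b ∘ e = z := by
    funext i
    have := hz i
    simp only [hb, he, Function.comp]
    omega
  have h1 := Pool.Agent.Q177.SF.comp (n + 1) k e (fun z : Fin k → ℤ => ((univ.image z).card : ℝ)) r b
  rw [hbe] at h1
  rw [← h1]
  have h2 : CG (fun w : Fin (n + 1) → ℤ => ((univ.image (w ∘ e)).card : ℝ)) r b ≤
      CG (fun w : Fin (n + 1) → ℤ => 1 + ∑ j : Fin n,
        (if Function.Injective (![w j.castSucc, w j.succ] : Fin 2 → ℤ) then (1 : ℝ) else 0)) r b := by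
    apply CG_mono
    intro w
    refine le_trans ?_ (changes n w)
    have h3 : (univ.image (w ∘ e)) ⊆ univ.image w := by
      intro x hx
      rw [mem_image] at hx ⊢
      obtain ⟨i, -, rfl⟩ := hx
      exact ⟨e i, mem_univ _, rfl⟩
    exact_mod_cast card_le_card h3
  refine h2.trans ?_
  rw [CG_add (fun _ => 1) (fun w : Fin (n + 1) → ℤ => ∑ j : Fin n,
        (if Function.Injective (![w j.castSucc, w j.succ] : Fin 2 → ℤ) then (1 : ℝ) else 0)), CG_const]
  rw [CG_sum univ (fun (j : Fin n) (w : Fin (n + 1) → ℤ) => if Function.Injective (![w j.castSucc, w j.succ] : Fin 2 → ℤ) then (1 : ℝ) else 0)]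
  have h3 : ∀ j : Fin n, CG (fun w : Fin (n + 1) → ℤ =>
      if Function.Injective (![w j.castSucc, w j.succ] : Fin 2 → ℤ) then (1 : ℝ) else 0) r b ≤ pq r 1 := by
    intro j
    have h4 := Pool.Agent.Q177.SF.comp (n + 1) 2 ![j.castSucc, j.succ]
      (fun v : Fin 2 → ℤ => if Function.Injective v then (1 : ℝ) else 0) r b
    have h5 : (fun w : Fin (n + 1) → ℤ =>
        (fun v : Fin 2 → ℤ => if Function.Injective v then (1 : ℝ) else 0) (w ∘ ![j.castSucc, j.succ])) =
        fun w : Fin (n + 1) → ℤ =>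
          if Function.Injective (![w j.castSucc, w j.succ] : Fin 2 → ℤ) then (1 : ℝ) else 0 := by
      funext w
      have : w ∘ ![j.castSucc, j.succ] = ![w j.castSucc, w j.succ] := by
        funext i
        fin_cases i <;> rfl
      simp only [this]
    rw [h5] at h4
    rw [h4, Pool.Agent.Q210.SF.cinj 2 (fun _ => 1) r]
    have h6 := NG_le_pq (k := 2) (i := 0) (j := 1) (by decide) r (b ∘ ![j.castSucc, j.succ])
    refine h6.trans (le_of_eq ?_)
    congr 1
    simp only [hb, Function.comp]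
    simp
  calc 1 + ∑ j : Fin n, CG (fun w : Fin (n + 1) → ℤ =>
      if Function.Injective (![w j.castSucc, w j.succ] : Fin 2 → ℤ) then (1 : ℝ) else 0) r b ≤
      1 + ∑ _j : Fin n, pq r 1 := by
        have := sum_le_sum (fun j (_ : j ∈ (univ : Finset (Fin n))) => h3 j)
        linarith
    _ = 1 + n * pq r 1 := by
        rw [sum_const, card_univ, Fintype.card_fin, nsmul_eq_mul]

theorem act_fsum {k : ℕ} {ι : Type*} (s : Finset ι) (p : Rg k) (f : ι → (Fin k → ℤ) → ℝ) (a : Fin k → ℤ) :
    act k p (fun z => ∑ i ∈ s, f i z) a = ∑ i ∈ s, act k p (f i) a := by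
  have e : (fun z => ∑ i ∈ s, f i z) = ∑ i ∈ s, f i := by
    funext z
    rw [Finset.sum_apply]
  rw [e, map_sum, Finset.sum_apply]

theorem act_fadd {k : ℕ} (p : Rg k) (f g : (Fin k → ℤ) → ℝ) (a : Fin k → ℤ) :
    act k p (fun z => f z + g z) a = act k p f a + act k p g a := by
  have e : (fun z => f z + g z) = f + g := rfl
  rw [e, map_add, Pi.add_apply]

theorem act_fconst {k : ℕ} (m : ℕ) (c : ℝ) (a : Fin k → ℤ) : act k (PP k ^ m) (fun _ => c) a = c := by
  induction m generalizing a with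
  | zero => rw [pow_zero, act_one]
  | succ n ih =>
    rw [pow_succ, act_mul]
    have : act k (PP k) (fun _ => c) = fun _ => c := by
      funext b
      rw [act_PP, sum_const, nsmul_eq_mul, card_sets]
      field_simp
    rw [this, ih]

theorem spread (k m : ℕ) : act k (PP k ^ m) (fun z => ∑ i, ((z i : ℝ) - m / 2) ^ 2) 0 = k * (m / 4) := by
  rw [act_fsum]
  have h : ∀ i : Fin k, act k (PP k ^ m) (fun z => ((z i : ℝ) - m / 2) ^ 2) 0 = m / 4 := by
    intro i
    have h1 := act_coord i m (fun x : ℤ => ((x : ℝ) - m / 2) ^ 2) (0 : Fin k → ℤ)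
    rw [h1]
    have h2 := bE_sq m ((m : ℝ) / 2)
    rw [sub_self] at h2
    have h3 : (fun m_1 : ℕ => ((((0 : Fin k → ℤ) i + (m_1 : ℤ) : ℤ) : ℝ) - m / 2) ^ 2) =
        fun j : ℕ => ((j : ℝ) - m / 2) ^ 2 := by
      funext j
      simp
    rw [h3, h2]
    ring
  rw [sum_congr rfl (fun i _ => h i), sum_const, card_univ, Fintype.card_fin, nsmul_eq_mul]

theorem num : S_Num := by
  classical
  intro κ hκ
  refine ⟨5 * √(1 / κ + 1), by positivity, fun m r hmr hr k => ?_⟩
  rcases Nat.eq_zero_or_pos k with hk | hk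
  · subst hk
    have h1 : act 0 (PP 0 ^ m) (CG (fun z : Fin 0 → ℤ => ((univ.image z).card : ℝ)) r) 0 ≤
        act 0 (PP 0 ^ m) (fun _ => (1 : ℝ)) 0 := by
      apply act_mono
      intro a
      have h2 := CG_mono (F := fun z : Fin 0 → ℤ => ((univ.image z).card : ℝ)) (G := fun _ => 1)
        (fun z => by simp) r a
      rwa [CG_const] at h2
    rw [act_fconst] at h1
    simpa using h1
  have hkr : (0 : ℝ) < k := by exact_mod_cast hk
  have hm0 : (0 : ℝ) ≤ m := Nat.cast_nonneg m
  have hrr : (1 : ℝ) ≤ r := by exact_mod_cast hr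
  set P : ℝ := pq r 1 with hP
  have hP0 : 0 ≤ P := pq_nonneg _ _
  set A : ℝ := √(k * (m + 1)) with hA
  have hA2 : A ^ 2 = k * (m + 1) := Real.sq_sqrt (by positivity)
  have hAp : 0 < A := Real.sqrt_pos.2 (by positivity)
  have key : ∀ z : Fin k → ℤ, CG (fun z : Fin k → ℤ => ((univ.image z).card : ℝ)) r z ≤
      (1 + P * A) + (P / A) * ∑ i, ((z i : ℝ) - m / 2) ^ 2 := by
    intro z
    set S : ℝ := ∑ i, ((z i : ℝ) - m / 2) ^ 2 with hS
    have hS0 : 0 ≤ S := sum_nonneg fun i _ => sq_nonneg _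
    have hi : ∀ i, |(z i : ℝ) - m / 2| ≤ √S := by
      intro i
      apply Real.abs_le_sqrt
      exact single_le_sum (f := fun i => ((z i : ℝ) - m / 2) ^ 2) (fun j _ => sq_nonneg _) (mem_univ i)
    set lo : ℤ := ⌈(m : ℝ) / 2 - √S⌉ with hlo
    set hi' : ℤ := ⌊(m : ℝ) / 2 + √S⌋ with hhi
    have hz : ∀ i, lo ≤ z i ∧ z i ≤ hi' := by
      intro i
      have h1 := abs_le.1 (hi i)
      constructor
      · rw [hlo, Int.ceil_le]; linarith [h1.1]
      · rw [hhi, Int.le_floor]; linarith [h1.2]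
    have hlh : lo ≤ hi' := (hz ⟨0, hk⟩).1.trans (hz ⟨0, hk⟩).2
    have h1 := places_le r lo (hi' - lo).toNat z (fun i => by
      have := hz i
      omega)
    refine h1.trans ?_
    have h2 : (((hi' - lo).toNat : ℕ) : ℝ) ≤ 2 * √S := by
      have h3 : ((((hi' - lo).toNat : ℕ) : ℤ) : ℝ) = ((hi' - lo : ℤ) : ℝ) := by
        congr 1
        omega
      rw [Int.cast_natCast] at h3
      rw [h3]
      push_cast
      have h4 : (hi' : ℝ) ≤ m / 2 + √S := Int.floor_le _
      have h5 : (m : ℝ) / 2 - √S ≤ lo := Int.le_ceil _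
      linarith
    have h3 : 2 * √S ≤ A + S / A := by
      have h4 : √S ^ 2 = S := Real.sq_sqrt hS0
      have h5 : 0 ≤ (A - √S) ^ 2 / A := by positivity
      have h6 : (A - √S) ^ 2 / A = A + S / A - 2 * √S := by
        field_simp
        nlinarith
      linarith
    have h4 : (((hi' - lo).toNat : ℕ) : ℝ) * P ≤ (A + S / A) * P :=
      mul_le_mul_of_nonneg_right (h2.trans h3) hP0
    have h5 : (A + S / A) * P = P * A + P / A * S := by
      field_simp
    rw [← hP]
    linarith
  have h1 := act_mono m key (0 : Fin k → ℤ)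
  rw [act_fadd (PP k ^ m) (fun _ => 1 + P * A) (fun z => (P / A) * ∑ i, ((z i : ℝ) - m / 2) ^ 2), act_fconst,
    act_scale, spread] at h1
  refine h1.trans ?_
  have hPle : P ≤ 4 / √(2 * (r : ℝ) + 1) := pq_one_le r
  have h2 : P / A * (k * (m / 4)) ≤ P * A / 4 := by
    have h3 : (k : ℝ) * (m / 4) ≤ A ^ 2 / 4 := by
      rw [hA2]
      nlinarith
    calc P / A * (k * (m / 4)) ≤ P / A * (A ^ 2 / 4) := mul_le_mul_of_nonneg_left h3 (by positivity)
      _ = P * A / 4 := by field_simp
  have hs : 0 < √(2 * (r : ℝ) + 1) := Real.sqrt_pos.2 (by positivity)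
  have h3 : P * A ≤ 4 * (√(1 / κ + 1) * √k) := by
    have h4 : A ≤ √(2 * (r : ℝ) + 1) * (√(1 / κ + 1) * √k) := by
      rw [hA, ← Real.sqrt_mul (by positivity), ← Real.sqrt_mul (by positivity)]
      apply Real.sqrt_le_sqrt
      have h5 : (m : ℝ) + 1 ≤ (1 / κ + 1) * r := by
        have h6 : (m : ℝ) ≤ 1 / κ * r := by
          rw [div_mul_eq_mul_div, one_mul, le_div_iff₀ hκ]
          linarith
        linarith
      have h7 : (m : ℝ) + 1 ≤ (2 * r + 1) * (1 / κ + 1) := by
        have h8 : 0 < 1 / κ + 1 := by positivity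
        nlinarith
      nlinarith
    calc P * A ≤ 4 / √(2 * (r : ℝ) + 1) * (√(2 * (r : ℝ) + 1) * (√(1 / κ + 1) * √k)) :=
          mul_le_mul hPle h4 hAp.le (by positivity)
      _ = 4 * (√(1 / κ + 1) * √k) := by field_simp
  have h4 : 1 + 5 * √(1 / κ + 1) * √k = 1 + 5 * (√(1 / κ + 1) * √k) := by ring
  rw [h4]
  linarith

end Pool.Agent.Q153.BH
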